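import Pool.Agent.MP_e57dcf_an.Defs
import Pool.Agent.MP_e57dcf_an.Mg.H70_Final

set_option autoImplicit false

namespace Pool.Agent.Results.MP_e57dcf_an.Classification

open Pool.Agent.MP_e57dcf_an

theorem result (n : ℕ) (hn : 2 ≤ n) (f : Fin (2 * n - 2) → EuclideanSpace ℝ (Fin n)) :
    DoesWeakPR f ↔
      (∃ (σ : Fin 2 ≃ Fin (2 * n - 2)) (τ : Fin 2 ≃ Fin n) (s : Fin 2 → ℝ) (a : ℝ),
        (∀ i, s i ≠ 0) ∧ a ≠ 0 ∧ ∀ i k, f (σ i) (τ k) = s i * ![![1, a], ![1, -a]] i k) ∨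
      (∃ (σ : Fin 4 ≃ Fin (2 * n - 2)) (τ : Fin 3 ≃ Fin n) (s : Fin 4 → ℝ) (a b t : ℝ),
        (∀ i, s i ≠ 0) ∧ a ≠ 0 ∧ b ≠ 0 ∧ t ≠ 0 ∧ ∀ i k, f (σ i) (τ k) = s i *
          ![![1, a, b], ![1, -a, -b], ![1, t * a, -(t * b)], ![1, -(t * a), t * b]] i k) :=
  classification n hn f

end Pool.Agent.Results.MP_e57dcf_an.Classification
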