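import Pool.Agent.MP_e57dcf_an.Defs
import Pool.Agent.MP_e57dcf_an.Mg.H70_Dense

set_option autoImplicit false

namespace Pool.Agent.Results.MP_e57dcf_an.NowhereDense

open Pool.Agent.MP_e57dcf_an

theorem result (n : ℕ) (hn : 2 ≤ n) :
    IsNowhereDense {f : {f : Fin (2 * n - 2) → EuclideanSpace ℝ (Fin n) //
      Submodule.span ℝ (Set.range f) = ⊤} | DoesWeakPR f.1} :=
  nowhere_dense n hn

end Pool.Agent.Results.MP_e57dcf_an.NowhereDense
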